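import Mathlib
import Pool.Agent.Lib.lead.TT

set_option autoImplicit false

namespace Pool.Agent.Results.MP_dcacc7_lc.Nontrivial

open LeadTT

/-- Classical truth value, reading the arrow materially. -/
def mat (v : ℕ → Prop) : Fm → Prop
  | .atom p => v p
  | .neg φ => ¬ mat v φ
  | .and φ ψ => mat v φ ∧ mat v ψ
  | .or φ ψ => mat v φ ∨ mat v ψ
  | .imp φ ψ => ¬ mat v φ ∨ mat v ψ

theorem result : ∃ φ : Fm, (∀ v, mat v φ) ∧ ¬ Acc φ := by
  refine ⟨.imp (.and (.atom 0) (.neg (.atom 0))) (.atom 1), fun v => ?_, fun h => ?_⟩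
  · simp [mat]
  · obtain ⟨p, h1, h2⟩ := share h
    simp [Fm.vars] at h1 h2
    omega

end Pool.Agent.Results.MP_dcacc7_lc.Nontrivial
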